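import Pool.Agent.TH377.Dyn.Rat
import Pool.Agent.TH377.Dyn.Box

/-!
# MP_c076ed_nt: rational functions `F / (b G)`

Let `K` be a number field (for instance `K = ℚ`) and `d ≥ 2`.  For `b, c₀, …, c_d ∈ O_K` let
`F = c₀ + c₁ x + … + c_d x^d`.  We prove that for 100% of the vectors `(b, c₀, …, c_d)`, for ALL
polynomials `G` with coefficients in `O_K`, of degree less than `d` and with a leading coefficient
prime to `b`, and for ALL finite extensions `L` of `K` with `d ∤ [L : K]` (for instance `L = K = ℚ`)
the preperiodic points in `P¹(L)` of the rational function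

  `φ = F / (b G)`

of degree `d` are exactly `∞` and the poles of `φ` in `L`, that is, the roots of `G`.  So `φ` has at
most `d` preperiodic points in `P¹(L)`, and this bound is attained (if `G` is a product of `d - 1`
different linear factors).  The exceptional set of vectors does not depend on `G` or `L`, and the size
of the coefficients of `G` is not bounded.  It has density zero in boxes (with respect to any integral
basis), and in a stronger sense: for every `ε > 0` there is an ideal `I ≠ 0` such that the exceptional
vectors lie in at most `ε #(O_K/I)^(d+2)` residue classes modulo `I`.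

Proof.  Let `v` be a prime of `K` that divides `b`, such that `F` is irreducible of degree `d` modulo
`v`.  If `d ∤ [L : K]`, then there is a place `w` of `L` above `v` whose residue degree is not
divisible by `d`, because `∑ e(w|v) f(w|v) = [L : K]`; so `F` has no root in the residue field of `w`.
Let `x ∈ L` with `G(x) ≠ 0`.  If `x` is integral at `w`, then `F(x)` is a unit and
`|φ(x)|_w ≥ 1/|b|_w > 1`.  If `|x|_w > 1`, then `|φ(x)|_w = |x|_w^(d - deg G) / |b|_w > |x|_w`, because
the leading coefficient of `G` is a unit at `w`, and `G(φ(x)) ≠ 0`.  So the orbit of `x` is infinite.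
Such a prime `v` exists for almost all vectors, because the conditions hold for a proportion of at
least `(1/4d) (1/N v - 1/(N v)²)` of all vectors modulo `v²`, and the sum of the `1/N v` diverges.
-/

set_option autoImplicit false
set_option maxHeartbeats 400000

open Polynomial NumberField Filter Topology

namespace Pool.Agent.Results.MP_c076ed_nt.DivisibleDenominators

universe u v w

/-- The rational map `x ↦ F(x) / (b G(x))` from `P¹(L) = L ∪ {∞}` to itself, where `none` is the
point `∞`, for polynomials `F`, `G` over `L` without common roots and with `deg G < deg F`: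
`∞` and the roots of `G` are mapped to `∞`. -/
noncomputable def ratMap {L : Type v} [Field L] (F G : L[X]) (b : L) : Option L → Option L
  | none => none
  | some x => open Classical in if G.eval x = 0 then none else some (F.eval x / (b * G.eval x))

/-- The point `P` is preperiodic for the map `f`: two different iterates of it are equal. -/
def IsPreperiodic {S : Type v} (f : S → S) (P : S) : Prop := ∃ m n : ℕ, m < n ∧ f^[m] P = f^[n] P

/-- The polynomial `c₁ + c₂ x + … + c_{d+1} x^d`, for a vector `(c₀, …, c_{d+1})`. -/
noncomputable def poly {R : Type u} [CommRing R] {d : ℕ} (c : Fin (d + 2) → R) : R[X] :=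
  ∑ i : Fin (d + 1), C (c i.succ) * X ^ (i : ℕ)

/-- The preperiodic points of `F / (b G)` in `P¹(L)`, `F = poly c`, `b = c 0`. -/
def PrePer {K : Type u} [Field K] {d : ℕ} (c : Fin (d + 2) → 𝓞 K) (G : (𝓞 K)[X]) (L : Type v)
    [Field L] [Algebra K L] : Set (Option L) :=
  {P | IsPreperiodic (ratMap ((poly c).map ((algebraMap K L).comp (algebraMap (𝓞 K) K)))
    (G.map ((algebraMap K L).comp (algebraMap (𝓞 K) K))) (algebraMap K L (c 0))) P}

/-- The vectors `c = (b, c₀, …, c_d)` of integers of `K` that do not have the following property: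
`b ≠ 0`, the polynomial `F = c₀ + … + c_d x^d` has degree `d`, and for all polynomials `G` of degree
less than `d` over `O_K` whose leading coefficient is prime to `b`, `F` and `G` are coprime over `K`,
and for all finite extensions `L` of `K` with `d ∤ [L : K]` the preperiodic points of `F / (b G)` in
`P¹(L)` are `∞` and the roots of `G` in `L`, and their number is at most `d`. -/
def Exceptional (K : Type u) [Field K] (d : ℕ) : Set (Fin (d + 2) → 𝓞 K) :=
  {c | ¬ (c 0 ≠ 0 ∧ (poly c).natDegree = d ∧
    ∀ G : (𝓞 K)[X], G.natDegree < d → IsCoprime (c 0) G.leadingCoeff →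
      IsCoprime ((poly c).map (algebraMap (𝓞 K) K)) (G.map (algebraMap (𝓞 K) K)) ∧
      ∀ (L : Type v) [Field L] [Algebra K L] [FiniteDimensional K L],
        ¬ d ∣ Module.finrank K L →
        (∀ P : Option L, P ∈ PrePer c G L ↔ P = none ∨
          ∃ x : L, P = some x ∧
            (G.map ((algebraMap K L).comp (algebraMap (𝓞 K) K))).eval x = 0) ∧
        (PrePer c G L).encard ≤ d)}

/-- Density zero: for every `ε > 0` there is an ideal `I ≠ 0` such that `E` lies in at most
`ε #(O_K/I)ᴺ` residue classes modulo `I`. -/
def DensityZero {K : Type u} [Field K] {N : ℕ} (E : Set (Fin N → 𝓞 K)) : Prop :=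
  ∀ ε : ℝ, 0 < ε → ∃ I : Ideal (𝓞 K), I ≠ ⊥ ∧
    (Set.ncard ((fun (t : Fin N → 𝓞 K) i => Ideal.Quotient.mk I (t i)) '' E) : ℝ) ≤
      ε * (Nat.card (𝓞 K ⧸ I) : ℝ) ^ N

/-- The vectors all of whose entries have coordinates of absolute value at most `H` in the integral
basis `ω`. -/
def Box {K : Type u} [Field K] {J : Type w} (ω : Module.Basis J ℤ (𝓞 K)) (N H : ℕ) :
    Set (Fin N → 𝓞 K) :=
  {c | ∀ i j, |ω.repr (c i) j| ≤ (H : ℤ)}

section proof

open IsDedekindDomain Pool.Agent.TH377.Dyn Pool.Agent.TH377.Sup

lemma ratMap_eq {L : Type v} [Field L] (F G : L[X]) (b : L) : ratMap F G b = rat F G b := by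
  funext P
  cases P <;> rfl

lemma not_pre {S : Type v} (f : S → S) (P : S) (h : Function.Injective fun n => f^[n] P) :
    ¬ IsPreperiodic f P := by
  rintro ⟨m, n, hmn, h1⟩
  exact hmn.ne (h h1)

lemma good {K : Type u} [Field K] [NumberField K] {d : ℕ} (c : Fin (d + 2) → 𝓞 K)
    (v : HeightOneSpectrum (𝓞 K)) (h0 : c 0 ≠ 0) (hv : c 0 ∈ v.asIdeal)
    (h : IrrMod v d fun i => c i.succ) : c ∉ Exceptional.{u, v} K d := by
  intro hc
  apply hc
  obtain ⟨h1, h2, h3⟩ := num_facts c v h
  refine ⟨h0, h1, fun G hG hcop => ?_⟩
  have hlG : G.leadingCoeff ∉ v.asIdeal := by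
    intro hmem
    obtain ⟨a, e, hae⟩ := hcop
    apply v.isPrime.ne_top
    rw [Ideal.eq_top_iff_one, ← hae]
    exact add_mem (Ideal.mul_mem_left _ _ hv) (Ideal.mul_mem_left _ _ hmem)
  have hG0 : G ≠ 0 := by
    rintro rfl
    apply hlG
    rw [leadingCoeff_zero]
    exact zero_mem _
  refine ⟨num_coprime v (num c) h2 h3 G hG0 (by rwa [h1]), ?_⟩
  intro L _ _ _ hL
  have hNF : NumberField L := NumberField.of_module_finite K L
  have hcomp : (algebraMap K L).comp (algebraMap (𝓞 K) K) = algebraMap (𝓞 K) L :=
    (IsScalarTower.algebraMap_eq (𝓞 K) K L).symm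
  have hiff : ∀ P : Option L, P ∈ PrePer c G L ↔ P = none ∨ ∃ x : L, P = some x ∧
      (G.map ((algebraMap K L).comp (algebraMap (𝓞 K) K))).eval x = 0 := by
    intro P
    change IsPreperiodic _ P ↔ _
    rw [hcomp, ratMap_eq]
    constructor
    · intro hP
      cases P with
      | none => exact Or.inl rfl
      | some x =>
        right
        refine ⟨x, rfl, ?_⟩
        by_contra hx
        have := rat_injective v (c 0) hv h0 (num c) h2 h3 G hlG (by rwa [h1])
          (by rwa [h1]) x hx
        exact not_pre _ _ this hP
    · rintro (rfl | ⟨x, rfl, hx⟩)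
      · exact ⟨0, 1, zero_lt_one, rfl⟩
      · refine ⟨1, 2, one_lt_two, ?_⟩
        have e1 : (rat ((poly c).map (algebraMap (𝓞 K) L)) (G.map (algebraMap (𝓞 K) L))
            (algebraMap K L (c 0))) (some x) = none := rat_zero _ _ _ _ hx
        rw [Function.iterate_one, Function.iterate_succ_apply', Function.iterate_one, e1]
        rfl
  refine ⟨hiff, ?_⟩
  classical
  have hinj : Function.Injective (algebraMap (𝓞 K) L) :=
    FaithfulSMul.algebraMap_injective (𝓞 K) L
  set G₁ := G.map (algebraMap (𝓞 K) L) with hG₁
  have hG₁0 : G₁ ≠ 0 := (Polynomial.map_ne_zero_iff hinj).2 hG0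
  have hsub : PrePer c G L ⊆ ((insert none (G₁.roots.toFinset.image some) : Finset (Option L)) :
      Set (Option L)) := by
    intro P hP
    rw [Finset.mem_coe, Finset.mem_insert, Finset.mem_image]
    rcases (hiff P).1 hP with h4 | ⟨x, rfl, hx⟩
    · exact Or.inl h4
    · right
      rw [hcomp] at hx
      exact ⟨x, Multiset.mem_toFinset.2 ((mem_roots hG₁0).2 hx), rfl⟩
  refine (Set.encard_le_encard hsub).trans ?_
  rw [Set.encard_coe_eq_coe_finsetCard]
  have h5 : (insert none (G₁.roots.toFinset.image some) : Finset (Option L)).card ≤ d := by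
    refine (Finset.card_insert_le _ _).trans ?_
    have h6 := Finset.card_image_le (s := G₁.roots.toFinset) (f := (some : L → Option L))
    have h7 := Multiset.toFinset_card_le G₁.roots
    have h8 := card_roots' G₁
    have h9 : G₁.natDegree = G.natDegree := natDegree_map_eq_of_injective hinj G
    omega
  exact_mod_cast h5

end proof

/-- **The preperiodic points of the rational functions `F / (b G)`.**  Let `K` be a number field and
`d ≥ 2`.  For all vectors `(b, c₀, …, c_d)` of integers of `K` outside a set of density zero, for all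
polynomials `G` over `O_K` of degree less than `d` with a leading coefficient prime to `b`, and for
all finite extensions `L` of `K` with `d ∤ [L : K]`, the preperiodic points of
`(c₀ + … + c_d x^d) / (b G)` in `P¹(L)` are `∞` and the roots of `G`; so there are at most `d`. -/
theorem result (K : Type u) [Field K] [NumberField K] (d : ℕ) (hd : 2 ≤ d) :
    DensityZero (Exceptional.{u, v} K d) ∧
      ∀ (J : Type w) [Fintype J] (ω : Module.Basis J ℤ (𝓞 K)),
        Tendsto (fun H : ℕ => ((Exceptional.{u, v} K d ∩ Box ω (d + 2) H).ncard : ℝ) /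
          ((Box ω (d + 2) H).ncard : ℝ)) atTop (𝓝 0) := by
  have key : Pool.Agent.TH120.Sec.DZ (d + 2) (Exceptional.{u, v} K d) := by
    refine Pool.Agent.TH377.Dyn.DZ.mono
      (Pool.Agent.TH377.Dyn.dz_prime K d hd 1 one_ne_zero) ?_
    intro c hc hex
    obtain ⟨v, -, h1, h2, h3⟩ := hex
    have h0 : c 0 ≠ 0 := by
      intro h0
      apply h2
      rw [h0]
      exact zero_mem _
    exact good c v h0 h1 h3 hc
  exact ⟨key, fun J _ ω => Pool.Agent.TH377.Dyn.box_tendsto _ key ω⟩

end Pool.Agent.Results.MP_c076ed_nt.DivisibleDenominators
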