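import Pool.Agent.TH873.IP.C

/-!
# Uniform bounds for the preperiodic points of one integral class
-/

set_option autoImplicit false

namespace Pool.Agent.Results.MP_c076ed_nt.IntegralPreperiodic

open Real NumberField Polynomial Pool.Agent.H951R3.PB Pool.Agent.TH873.IP

universe u

/-- For all `d ≥ 2` and `D` there is `C` such that for every number field `K` of degree at most `D`
and every finite set `T` of finite places of `K`:

* if `p` is a polynomial of degree `d` over `K` and `X` is a finite set of preperiodic points of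
  `p` in `K` such that `|a|_v |x - y|_v ^ (d - 1) ≤ 1` for all `x, y` in `X` and all finite places
  `v` outside `T`, where `a` is the leading coefficient of `p`, then `X` has at most
  `C (t + 1) log (t + 2)` elements, where `t` is the number of elements of `T`;
* if `f` is a pair of forms of degree `d` over `K` without common zero over the algebraic closure
  and `X` is a finite set of pairwise non-proportional nonzero vectors over `K` which represent
  preperiodic points of `f` in the projective line and which have regular orbits at all finite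
  places outside `T`, then `X` has at most `C (t + 1) log (t + 2)` elements. -/
theorem result (d : ℕ) (hd : 2 ≤ d) (D : ℕ) : ∃ C : ℝ, 0 < C ∧
    ∀ (K : Type u) [Field K] [NumberField K], Module.finrank ℚ K ≤ D →
    ∀ T : Finset (FinitePlace K),
      (∀ p : K[X], p.natDegree = d → ∀ X : Finset K,
        (∀ v, v ∉ T → ∀ x ∈ X, ∀ y ∈ X, v p.leadingCoeff * v (x - y) ^ (d - 1) ≤ 1) →
        (∀ x ∈ X, ∃ m n : ℕ, m < n ∧
          (fun x => p.eval x)^[n] x = (fun x => p.eval x)^[m] x) →
        (X.card : ℝ) ≤ C * (T.card + 1) * log (T.card + 2)) ∧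
      ∀ f : Fin 2 → MvPolynomial (Fin 2) K, (∀ i, (f i).IsHomogeneous d) →
        (∀ x : Fin 2 → AlgebraicClosure K, (∀ i, MvPolynomial.aeval x (f i) = 0) → x = 0) →
        ∀ X : Finset (Fin 2 → K), (∀ v, v ∉ T → Regular v.val d f X) → (∀ x ∈ X, x ≠ 0) →
        (∀ x ∈ X, ∀ y ∈ X, ∀ c : K, x = c • y → x = y) →
        (∀ x ∈ X, ∃ m n : ℕ, m < n ∧ ∃ c : K, c ≠ 0 ∧
          (fun v : Fin 2 → K => fun i => MvPolynomial.eval v (f i))^[n] x =
            c • (fun v : Fin 2 → K => fun i => MvPolynomial.eval v (f i))^[m] x) →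
        (X.card : ℝ) ≤ C * (T.card + 1) * log (T.card + 2) := by
  obtain ⟨C₁, hC₁, h₁⟩ := main_poly.{u} d hd D
  obtain ⟨C₂, hC₂, h₂⟩ := main_regular.{u} d hd D
  refine ⟨max C₁ C₂, lt_of_lt_of_le hC₁ (le_max_left _ _), ?_⟩
  intro K _ _ hfin T
  have hT : (0 : ℝ) ≤ T.card := Nat.cast_nonneg _
  have hl : 0 ≤ log ((T.card : ℝ) + 2) := log_nonneg (by linarith)
  refine ⟨fun p hp X hX hpre => ?_, fun f hf hz X hX hX0 hXc hpre => ?_⟩
  · refine (h₁ K hfin p hp T X hX hpre).trans ?_
    have := le_max_left C₁ C₂
    gcongr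
  · refine (h₂ K hfin f hf hz T X hX hX0 hXc hpre).trans ?_
    have := le_max_right C₁ C₂
    gcongr

end Pool.Agent.Results.MP_c076ed_nt.IntegralPreperiodic
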