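import Pool.Agent.TH737.HEN.Cls
import Pool.Agent.TH737.HEN.Sharp

/-!
# Rational preperiodic points of polynomials with potentially good reduction: the exact maximum

For every `d ≥ 2`, a polynomial of degree `d` over the rational numbers with potentially good
reduction at every prime has at most `max 5 d` rational preperiodic points, and this is attained in
every degree. With bad reduction at the primes in a set `T` the bound is `d ^ #T * max 5 d`.

Proof. Let `S` be a finite forward invariant set of rational numbers. Potentially good reduction and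
the product formula give `|s - t|^(d-1) |a_d| ≥ 1` for `s ≠ t` in `S` (at the primes of `T`: for
`s`, `t` in the same of at most `d` classes). If `S` has more elements than stated, Lagrange
interpolation at `d + 1` of them (with the two extreme ones, at well chosen positions) bounds
`|a_d|` by a sum in which all values of `f` are within half the diameter of a constant; this
contradicts the separation.
-/

set_option autoImplicit false

open Finset Polynomial NumberField Pool.Agent.TH737.HEN

namespace Pool.Agent.Results.MP_c076ed_nt.PolynomialsExact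

universe u

/-- The elements of `K` with a finite forward orbit under `f`. -/
def prePoints {K : Type u} [Field K] (f : K[X]) : Set K :=
  {x | (Set.range fun n : ℕ => (fun y : K => f.eval y)^[n] x).Finite}

/-- `f` has potentially good reduction at `v`: for an absolute value `w` on the algebraic closure
extending `v` and an affine coordinate `x = l x' + b` over the algebraic closure, `f` becomes a
polynomial `g` with `w`-integral coefficients whose leading coefficient is a `w`-adic unit. -/
def PotGoodAt {K : Type u} [Field K] [NumberField K] (v : FinitePlace K) (f : K[X]) : Prop :=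
  ∃ w : AbsoluteValue (AlgebraicClosure K) ℝ,
    (∀ x : K, w (algebraMap K (AlgebraicClosure K) x) = v x) ∧
    ∃ (g : (AlgebraicClosure K)[X]) (l b : AlgebraicClosure K), l ≠ 0 ∧
      (∀ j, w (g.coeff j) ≤ 1) ∧ w g.leadingCoeff = 1 ∧
      C l * g = (f.map (algebraMap K (AlgebraicClosure K))).comp (C l * X + C b) - C b

lemma potGoodAt_iff {K : Type u} [Field K] [NumberField K] (v : FinitePlace K) (f : K[X]) :
    PotGoodAt v f ↔ PotInt v f 0 := by
  unfold PotGoodAt PotInt
  simp only [map_zero, add_zero, one_mul, zero_le_one, true_and]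

lemma encard_le_of_finset {α : Type*} (s : Set α) (n : ℕ)
    (h : ∀ Y : Finset α, (∀ P ∈ Y, P ∈ s) → Y.card ≤ n) : s.encard ≤ n := by
  classical
  by_contra hcon
  push Not at hcon
  have h1 : ((n + 1 : ℕ) : ℕ∞) ≤ s.encard := by
    push_cast
    exact Order.add_one_le_of_lt hcon
  obtain ⟨t, hts, ht⟩ := Set.exists_subset_encard_eq h1
  have hfin : t.Finite := Set.finite_of_encard_eq_coe ht
  have h2 := h hfin.toFinset (fun P hP => hts (by simpa using hP))
  have h3 : t.encard = (hfin.toFinset.card : ℕ∞) := hfin.encard_eq_coe_toFinset_card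
  rw [h3] at ht
  have h4 : hfin.toFinset.card = n + 1 := by exact_mod_cast ht
  omega

/-- A finite set of preperiodic points lies in a finite forward invariant set. -/
lemma exists_inv {K : Type u} [Field K] (f : K[X]) (Y : Finset K)
    (hY : ∀ x ∈ Y, x ∈ prePoints f) : ∃ S : Finset K, Closed f 0 S ∧ Y ⊆ S := by
  classical
  set O : K → Set K := fun x => Set.range fun n : ℕ => (fun y : K => f.eval y)^[n] x with hO
  have hfin : (⋃ x ∈ Y, O x).Finite := by
    refine Set.Finite.biUnion Y.finite_toSet fun x hx => ?_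
    exact hY x hx
  refine ⟨hfin.toFinset, ?_, ?_⟩
  · intro s hs
    rw [Set.Finite.mem_toFinset] at hs
    simp only [Set.mem_iUnion] at hs
    obtain ⟨x, hx, n, hn⟩ := hs
    have hmem : f.eval s ∈ hfin.toFinset := by
      rw [Set.Finite.mem_toFinset]
      simp only [Set.mem_iUnion]
      refine ⟨x, hx, n + 1, ?_⟩
      rw [← hn]
      simp only [Function.iterate_succ_apply']
    exact ⟨_, hmem, _, hmem, by ring⟩
  · intro x hx
    rw [Set.Finite.mem_toFinset]
    simp only [Set.mem_iUnion]
    exact ⟨x, hx, 0, rfl⟩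

/-- An invariant finite set consists of preperiodic points. -/
lemma le_encard (K : Type u) [Field K] [CharZero K] (f : ℤ[X]) (A : Finset ℤ)
    (h : ∀ a ∈ A, f.eval a ∈ A) :
    (A.card : ℕ∞) ≤ (prePoints (f.map (Int.castRingHom K))).encard := by
  classical
  have hinj : Function.Injective (fun a : ℤ => (a : K)) := Int.cast_injective
  rw [← card_image_of_injective A hinj, ← Set.encard_coe_eq_coe_finsetCard]
  refine Set.encard_le_encard ?_
  intro x hx
  rw [mem_coe, mem_image] at hx
  obtain ⟨a, ha, rfl⟩ := hx
  refine Set.Finite.subset (Finset.finite_toSet (A.image fun a : ℤ => (a : K))) ?_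
  rintro _ ⟨n, rfl⟩
  rw [mem_coe]
  induction n with
  | zero => exact mem_image_of_mem _ ha
  | succ n ih =>
    simp only [Function.iterate_succ_apply']
    obtain ⟨b, hb, hbe⟩ := mem_image.1 ih
    dsimp only at hbe
    rw [← hbe]
    have h2 : eval (b : K) (f.map (Int.castRingHom K)) = ((f.eval b : ℤ) : K) := by
      have := eval_map_apply (f := Int.castRingHom K) (p := f) b
      simpa using this
    rw [h2]
    exact mem_image_of_mem _ (h b hb)

lemma card_le_of_pos (d : ℕ) (hd : 2 ≤ d) (p : ℕ → ℕ)
    (hp : ∀ i j, i < j → j ≤ d → p i < p j) (hp0 : p 0 = 0)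
    (hsmall : (p d : ℝ) / 2 * W d p < 1) (f : ℚ[X]) (hf : f.natDegree = d)
    (T : Finset (FinitePlace ℚ)) (h : ∀ v : FinitePlace ℚ, v ∉ T → PotGoodAt v f) :
    (prePoints f).encard ≤ ((d ^ T.card * p d : ℕ) : ℕ∞) := by
  refine encard_le_of_finset _ _ fun Y hY => ?_
  obtain ⟨S, hS, hYS⟩ := exists_inv f Y hY
  refine (card_le_card hYS).trans ?_
  refine rat_closed_card_cls d hd f 0 hf T ?_ (fun v hv => (potGoodAt_iff v f).1 (h v hv)) p hp hp0
    ?_ S hS
  · intro v _
    simp
  · simp only [Rat.cast_zero, abs_zero, add_zero]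
    calc (1 : ℝ) / 2 * p d * W d p = p d / 2 * W d p := by ring
      _ < 1 := hsmall

lemma fac_ineq (d : ℕ) (hd : 5 ≤ d) : 2 ^ (d - 1) < (d - 1).factorial := by
  induction d, hd using Nat.le_induction with
  | base => decide
  | succ d hd ih =>
    have h1 : d + 1 - 1 = (d - 1) + 1 := by omega
    rw [h1, Nat.factorial_succ, pow_succ]
    have h2 : 2 ≤ d - 1 + 1 := by omega
    nlinarith

/-- the positions `0, 2, 5` -/
def p2 (i : ℕ) : ℕ := if i = 0 then 0 else if i = 1 then 2 else 5

/-- the positions `0, 1, 4, 5` -/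
def p3 (i : ℕ) : ℕ := if i = 0 then 0 else if i = 1 then 1 else if i = 2 then 4 else 5

/-- the positions `0, 1, 2, 4, 5` -/
def p4 (i : ℕ) : ℕ :=
  if i = 0 then 0 else if i = 1 then 1 else if i = 2 then 2 else if i = 3 then 4 else 5

lemma W2 : W 2 p2 = 1 / 3 := by
  have e0 : (range 3).erase 0 = {1, 2} := by decide
  have e1 : (range 3).erase 1 = {0, 2} := by decide
  have e2 : (range 3).erase 2 = {0, 1} := by decide
  unfold W
  simp only [sum_range_succ, sum_range_zero, Nat.reduceAdd, e0, e1, e2]
  rw [prod_pair (by norm_num), prod_pair (by norm_num), prod_pair (by norm_num)]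
  norm_num [p2]

lemma W3 : W 3 p3 = 4 / 15 := by
  have e0 : (range 4).erase 0 = {1, 2, 3} := by decide
  have e1 : (range 4).erase 1 = {0, 2, 3} := by decide
  have e2 : (range 4).erase 2 = {0, 1, 3} := by decide
  have e3 : (range 4).erase 3 = {0, 1, 2} := by decide
  unfold W
  simp only [sum_range_succ, sum_range_zero, Nat.reduceAdd, e0, e1, e2, e3]
  norm_num [p3]

lemma W4 : W 4 p4 = 1 / 4 := by
  have e0 : (range 5).erase 0 = {1, 2, 3, 4} := by decide
  have e1 : (range 5).erase 1 = {0, 2, 3, 4} := by decide
  have e2 : (range 5).erase 2 = {0, 1, 3, 4} := by decide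
  have e3 : (range 5).erase 3 = {0, 1, 2, 4} := by decide
  have e4 : (range 5).erase 4 = {0, 1, 2, 3} := by decide
  unfold W
  simp only [sum_range_succ, sum_range_zero, Nat.reduceAdd, e0, e1, e2, e3, e4]
  norm_num [p4]

theorem upper (d : ℕ) (hd : 2 ≤ d) (f : ℚ[X]) (hf : f.natDegree = d)
    (T : Finset (FinitePlace ℚ)) (h : ∀ v : FinitePlace ℚ, v ∉ T → PotGoodAt v f) :
    (prePoints f).encard ≤ ((d ^ T.card * max 5 d : ℕ) : ℕ∞) := by
  by_cases h5 : 5 ≤ d
  · rw [max_eq_right h5]
    refine card_le_of_pos d hd id (fun i j hij _ => hij) rfl ?_ f hf T h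
    rw [W_id]
    simp only [id]
    have h1 := fac_ineq d h5
    have h2 : (2 : ℝ) ^ (d - 1) < ((d - 1).factorial : ℝ) := by exact_mod_cast h1
    have h3 : (d.factorial : ℝ) = d * (d - 1).factorial := by
      rw [← Nat.cast_mul, Nat.mul_factorial_pred (by omega)]
    have h4 : (2 : ℝ) ^ d = 2 * 2 ^ (d - 1) := by
      rw [← pow_succ']; congr 1; omega
    have hd0 : (0 : ℝ) < d := by exact_mod_cast (by omega : 0 < d)
    have h0 : (0 : ℝ) < (d - 1).factorial := by exact_mod_cast Nat.factorial_pos _
    rw [h3, h4]
    calc (d : ℝ) / 2 * (2 * 2 ^ (d - 1) / (d * (d - 1).factorial))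
        = 2 ^ (d - 1) / (d - 1).factorial := by field_simp
      _ < 1 := by rw [div_lt_one h0]; exact h2
  · rw [max_eq_left (by omega)]
    have hcases : d = 2 ∨ d = 3 ∨ d = 4 := by omega
    rcases hcases with rfl | rfl | rfl
    · refine card_le_of_pos 2 hd p2 (by intro i j hij hj; interval_cases j <;> interval_cases i <;> decide)
        rfl ?_ f hf T h
      rw [W2]; norm_num [p2]
    · refine card_le_of_pos 3 hd p3 (by intro i j hij hj; interval_cases j <;> interval_cases i <;> decide)
        rfl ?_ f hf T h
      rw [W3]; norm_num [p3]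
    · refine card_le_of_pos 4 hd p4 (by intro i j hij hj; interval_cases j <;> interval_cases i <;> decide)
        rfl ?_ f hf T h
      rw [W4]; norm_num [p4]

lemma potGood_int {K : Type u} [Field K] [NumberField K] (v : FinitePlace K) (f : ℤ[X])
    (hf : f.Monic) : PotGoodAt v (f.map (Int.castRingHom K)) := by
  rw [potGoodAt_iff]
  refine potInt_of_monic v _ _ (hf.map _) (fun j => ?_) (by simp)
  rw [coeff_map]
  exact finitePlace_intCast_le v _

lemma lower_large (K : Type u) [Field K] [CharZero K] (d : ℕ) (hd : 1 ≤ d) :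
    ∃ f : ℤ[X], f.Monic ∧ f.natDegree = d ∧
      (d : ℕ∞) ≤ (prePoints (f.map (Int.castRingHom K))).encard := by
  refine ⟨∏ i ∈ range d, (X - C (i : ℤ)), monic_prod_of_monic _ _ fun t _ => monic_X_sub_C _,
    ?_, ?_⟩
  · rw [natDegree_prod_of_monic _ _ fun t _ => monic_X_sub_C _,
      sum_congr rfl (fun t _ => natDegree_X_sub_C _), sum_const, card_range, smul_eq_mul, mul_one]
  · have h := le_encard K (∏ i ∈ range d, (X - C (i : ℤ))) ((range d).image fun i : ℕ => (i : ℤ)) ?_
    · rwa [card_image_of_injective _ Nat.cast_injective, card_range] at h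
    · intro a ha
      obtain ⟨i, hi, rfl⟩ := mem_image.1 ha
      have : eval (i : ℤ) (∏ i ∈ range d, (X - C (i : ℤ))) = 0 := by
        rw [eval_prod]
        exact prod_eq_zero hi (by simp)
      rw [this]
      exact mem_image.2 ⟨0, mem_range.2 (by omega), by simp⟩

/-- The examples. -/
theorem lower (d : ℕ) (hd : 2 ≤ d) : ∃ f : ℤ[X], f.Monic ∧ f.natDegree = d ∧
    ((max 5 d : ℕ) : ℕ∞) ≤ (prePoints (f.map (Int.castRingHom ℚ))).encard := by
  by_cases h5 : 5 ≤ d
  · rw [max_eq_right h5]
    exact lower_large ℚ d (by omega)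
  · rw [max_eq_left (by omega)]
    have hcases : d = 2 ∨ d = 3 ∨ d = 4 := by omega
    rcases hcases with rfl | rfl | rfl
    · refine ⟨X ^ 2 - C 2, by monicity!, by compute_degree!, ?_⟩
      refine le_encard ℚ _ {-2, -1, 0, 1, 2} ?_
      simp
    · refine ⟨X ^ 3 - C 3 * X, by monicity!, by compute_degree!, ?_⟩
      refine le_encard ℚ _ {-2, -1, 0, 1, 2} ?_
      simp
    · refine ⟨X ^ 4 - C 4 * X ^ 2 + C 2, by monicity!, by compute_degree!, ?_⟩
      refine le_encard ℚ _ {-2, -1, 0, 1, 2} ?_
      simp

lemma geom_ineq (d : ℕ) (hd : 31 ≤ d) : 2 * ((d : ℝ) + 1) < (4 / 3 : ℝ) ^ (d - 16) := by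
  induction d, hd using Nat.le_induction with
  | base => norm_num
  | succ d hd ih =>
    have h1 : d + 1 - 16 = (d - 16) + 1 := by omega
    rw [h1, pow_succ]
    push_cast
    have : (31 : ℝ) ≤ d := by exact_mod_cast hd
    nlinarith

/-- **The exact maximum of the number of rational preperiodic points of polynomials with
potentially good reduction everywhere.**

1. For every `d ≥ 2`, the greatest number of rational preperiodic points of a polynomial of degree
`d` over `ℚ` with potentially good reduction at every prime is `max 5 d`.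
2. A polynomial of degree `d ≥ 2` over `ℚ` with potentially good reduction at every prime outside a
finite set `T` has at most `d ^ #T * max 5 d` rational preperiodic points.
3. For every imaginary quadratic field `K` and every `d ≥ 31`, the greatest number of preperiodic
points in `K` of a polynomial of degree `d` over `K` with potentially good reduction at every prime
is `d`. -/
theorem result :
    (∀ d : ℕ, 2 ≤ d → IsGreatest {n : ℕ∞ | ∃ f : ℚ[X], f.natDegree = d ∧
      (∀ v : FinitePlace ℚ, PotGoodAt v f) ∧ (prePoints f).encard = n} ((max 5 d : ℕ) : ℕ∞)) ∧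
    (∀ (d : ℕ) (f : ℚ[X]) (T : Finset (FinitePlace ℚ)), 2 ≤ d → f.natDegree = d →
      (∀ v : FinitePlace ℚ, v ∉ T → PotGoodAt v f) →
      (prePoints f).encard ≤ ((d ^ T.card * max 5 d : ℕ) : ℕ∞)) ∧
    (∀ (K : Type u) [Field K] [NumberField K] (d : ℕ), Fintype.card (InfinitePlace K) = 1 →
      31 ≤ d → IsGreatest {n : ℕ∞ | ∃ f : K[X], f.natDegree = d ∧
        (∀ v : FinitePlace K, PotGoodAt v f) ∧ (prePoints f).encard = n} (d : ℕ∞)) := by
  have key : ∀ (d : ℕ) (f : ℚ[X]), 2 ≤ d → f.natDegree = d →
      (∀ v : FinitePlace ℚ, PotGoodAt v f) → (prePoints f).encard ≤ ((max 5 d : ℕ) : ℕ∞) := by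
    intro d f hd hf h
    have := upper d hd f hf ∅ (fun v _ => h v)
    simpa using this
  refine ⟨fun d hd => ⟨?_, ?_⟩, fun d f T hd hf h => upper d hd f hf T h, ?_⟩
  · obtain ⟨f, hm, hf, hc⟩ := lower d hd
    have hdeg : (f.map (Int.castRingHom ℚ)).natDegree = d := by
      rw [natDegree_map_eq_of_injective (RingHom.injective_int _), hf]
    refine ⟨f.map (Int.castRingHom ℚ), hdeg, fun v => potGood_int v f hm, ?_⟩
    exact le_antisymm (key d _ hd hdeg fun v => potGood_int v f hm) hc
  · rintro n ⟨f, hf, h, rfl⟩
    exact key d f hd hf h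
  · intro K _ _ d hone hd
    have key2 : ∀ f : K[X], f.natDegree = d → (∀ v : FinitePlace K, PotGoodAt v f) →
        (prePoints f).encard ≤ (d : ℕ∞) := by
      intro f hf h
      refine encard_le_of_finset _ _ fun Y hY => ?_
      obtain ⟨S, hS, hYS⟩ := exists_inv f Y hY
      refine (card_le_card hYS).trans ?_
      refine one_place_closed_card hone d (by omega) f 0 hf
        (fun v => (potGoodAt_iff v f).1 (h v)) (fun w => ?_) S hS
      have := geom_ineq d hd
      rw [map_zero, add_zero, mul_one]
      exact this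
    refine ⟨?_, ?_⟩
    · obtain ⟨f, hm, hf, hc⟩ := lower_large K d (by omega)
      have hdeg : (f.map (Int.castRingHom K)).natDegree = d := by
        rw [natDegree_map_eq_of_injective (RingHom.injective_int _), hf]
      refine ⟨f.map (Int.castRingHom K), hdeg, fun v => potGood_int v f hm, ?_⟩
      exact le_antisymm (key2 _ hdeg fun v => potGood_int v f hm) hc
    · rintro n ⟨f, hf, h, rfl⟩
      exact key2 f hf h

end Pool.Agent.Results.MP_c076ed_nt.PolynomialsExact
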