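import Pool.Agent.TH856.PG.Maps
import Pool.Agent.TH856.PG.RatSys
import Pool.Agent.TH856.GR.Maps

set_option autoImplicit false

/-!
# Rational preperiodic points of maps with everywhere potentially good reduction over `ℚ`

Let `f = [F : G]` be a self-map of `ℙ¹` of degree `d ≥ 2` over `ℚ` with potentially good reduction
at every prime (`Pool.Agent.H892.PGK.PotGood`).  Then `f` has at most `max (d + 2) 26` preperiodic
points in `ℙ¹(ℚ)`, of which at most `d + 1` are periodic.  If `f` is given by integral forms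
without common zero in `ℙ¹(𝔽_p)`, for any prime `p`, then it has at most `max (d + 2) 17`
preperiodic points in `ℙ¹(ℚ)`.  For every `d ≥ 2` there is such an `f` with `d + 1` fixed points.

Outline.  In the good coordinates at `p` let `δ_p` be the chordal distance; the logarithms of the
`δ_p` and of the absolute value of the determinant of two vectors add up to zero, after weights are
attached to the points.  At every `p` the distance of `f P` and `Q` is at most the product of the
distances of `P` to the rational points of the fibre of `Q`.  Hence all `δ_p` are preserved on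
periodic points, so that cross ratios are, and `f` agrees with a Möbius map on the periodic points;
and a strictly preperiodic point has distance one to all periodic points except one.  Two different
points have, up to a factor less than two, the same distances to at most two points.  The cases of
one and two periodic points are treated with Ptolemy's inequality for the global distance and the
inequalities along the basin of a fixed point.
-/

namespace Pool.Agent.Results.MP_c076ed_nt.PotentiallyGoodReduction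

open MvPolynomial Pool.Agent.TH856.PG
open Pool.Agent.H892.PGK (PotGood PP fX)

/-- The forms `F`, `G` have no common zero in `ℙ¹(𝔽_p)`, for any prime `p`. -/
def NoCommonZeroModPrimes (F G : MvPolynomial (Fin 2) ℤ) : Prop :=
  ∀ p : ℕ, p.Prime → ∀ x : Fin 2 → ZMod p, x ≠ 0 →
    ¬ (MvPolynomial.aeval x F = 0 ∧ MvPolynomial.aeval x G = 0)

section potgood
variable {d : ℕ} {F G : MvPolynomial (Fin 2) ℚ}

lemma potGood_qav
    (hp : ∀ (p : ℕ) [Fact p.Prime], PotGood (Rat.AbsoluteValue.padic p) F G d) (p : Pr) :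
    PotGood (qav p) F G d :=
  @hp p.1 ⟨p.2⟩

theorem bound_preper (hd : 2 ≤ d) (hF : F.IsHomogeneous d) (hG : G.IsHomogeneous d)
    (h0 : NoZero F G)
    (hp : ∀ (p : ℕ) [Fact p.Prime], PotGood (Rat.AbsoluteValue.padic p) F G d)
    (S : Finset (Projectivization ℚ (Fin 2 → ℚ))) (hS : ∀ P ∈ S, IsPreper F G P) :
    S.card ≤ max (d + 2) 26 := by
  classical
  apply card_preper_le h0 hF hG _ S hS
  intro T hT
  obtain ⟨W, _, h1, h2, h3⟩ := exists_sysQ hd hF hG h0 (potGood_qav hp) T hT
  have := W.card_le (M := 8) (by omega) (by omega) (by omega)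
  rw [Fintype.card_coe, h1] at this
  exact this

theorem bound_per (hd : 2 ≤ d) (hF : F.IsHomogeneous d) (hG : G.IsHomogeneous d)
    (h0 : NoZero F G)
    (hp : ∀ (p : ℕ) [Fact p.Prime], PotGood (Rat.AbsoluteValue.padic p) F G d)
    (S : Finset (Projectivization ℚ (Fin 2 → ℚ))) (hS : ∀ P ∈ S, IsPer F G P) :
    S.card ≤ d + 1 := by
  classical
  apply card_per_le (V := Pr) h0 hF hG _ S hS
  intro T hT
  obtain ⟨W, h, h1, h2, h3⟩ := exists_sysQ hd hF hG h0 (potGood_qav hp) T hT
  refine ⟨W, h, ?_⟩
  rcases Nat.lt_or_ge W.per.card 3 with h4 | h4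
  · omega
  · have := W.per_card_le h4
    rw [h1] at this
    exact this

end potgood

section good
open Pool.Agent.TH856.GR

lemma coprimePreserving {F G : MvPolynomial (Fin 2) ℤ} (h : NoCommonZeroModPrimes F G) :
    CoprimePreserving F G := by
  intro x y hxy
  rw [Int.isCoprime_iff_gcd_eq_one]
  by_contra hne
  obtain ⟨p, hp, hpd⟩ := Nat.exists_prime_and_dvd hne
  have := Fact.mk hp
  have hF : (p : ℤ) ∣ Pool.Agent.TH856.GR.ev F (x, y) :=
    (Int.natCast_dvd_natCast.2 hpd).trans (Int.gcd_dvd_left _ _)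
  have hG : (p : ℤ) ∣ Pool.Agent.TH856.GR.ev G (x, y) :=
    (Int.natCast_dvd_natCast.2 hpd).trans (Int.gcd_dvd_right _ _)
  have key : ∀ H : MvPolynomial (Fin 2) ℤ,
      MvPolynomial.aeval ![(x : ZMod p), (y : ZMod p)] H =
        ((Pool.Agent.TH856.GR.ev H (x, y) : ℤ) : ZMod p) := by
    intro H
    unfold Pool.Agent.TH856.GR.ev
    rw [MvPolynomial.aeval_def, MvPolynomial.eval₂_eq', MvPolynomial.eval_eq']
    push_cast
    simp [Fin.prod_univ_two]
  apply h p hp ![(x : ZMod p), (y : ZMod p)]
  · intro h0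
    have h1 : (x : ZMod p) = 0 := congrFun h0 0
    have h2 : (y : ZMod p) = 0 := congrFun h0 1
    rw [ZMod.intCast_zmod_eq_zero_iff_dvd] at h1 h2
    have := hxy.isUnit_of_dvd' h1 h2
    rw [Int.isUnit_iff] at this
    have := hp.one_lt
    omega
  · rw [key, key]
    exact ⟨(ZMod.intCast_zmod_eq_zero_iff_dvd _ _).2 hF,
      (ZMod.intCast_zmod_eq_zero_iff_dvd _ _).2 hG⟩

variable {d : ℕ} {F G : MvPolynomial (Fin 2) ℤ}

lemma homMap_map :
    homMap (F.map (Int.castRingHom ℚ)) (G.map (Int.castRingHom ℚ)) =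
      Pool.Agent.TH856.GR.Phi F G := by
  funext w
  unfold homMap Pool.Agent.TH856.GR.Phi
  rw [MvPolynomial.eval_map, MvPolynomial.eval_map, MvPolynomial.aeval_def,
    MvPolynomial.aeval_def]
  rfl

lemma preper_iter_int (hF : F.IsHomogeneous d) (hG : G.IsHomogeneous d)
    (hc : CoprimePreserving F G) {P : PQ}
    (h : IsPreper (F.map (Int.castRingHom ℚ)) (G.map (Int.castRingHom ℚ)) P) :
    ∃ m n : ℕ, m < n ∧ (phi hc)^[n] P = (phi hc)^[m] P := by
  obtain ⟨v, hv, rfl, m, n, hmn, c, hc0, h⟩ := h
  rw [homMap_map] at h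
  refine ⟨m, n, hmn, ?_⟩
  obtain ⟨h1, h2⟩ := phi_iter hF hG hc v hv n
  obtain ⟨h3, h4⟩ := phi_iter hF hG hc v hv m
  rw [← h2, ← h4, Projectivization.mk_eq_mk_iff']
  exact ⟨c, h.symm⟩

/-- the bound for preperiodic points, for good reduction -/
theorem bound_good (hd : 2 ≤ d) (hF : F.IsHomogeneous d) (hG : G.IsHomogeneous d)
    (h : NoCommonZeroModPrimes F G) (S : Finset (Projectivization ℚ (Fin 2 → ℚ)))
    (hS : ∀ P ∈ S, IsPreper (F.map (Int.castRingHom ℚ)) (G.map (Int.castRingHom ℚ)) P) :
    S.card ≤ max (d + 2) 17 := by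
  classical
  have hc := coprimePreserving h
  obtain ⟨T, hST, hT⟩ := Pool.Agent.TH856.GR.exists_invariant (phi hc) S
    (fun P hP => preper_iter_int hF hG hc (hS P hP))
  obtain ⟨W, _⟩ := Pool.Agent.TH856.GR.exists_sys hd hF hG hc T hT
  have := W.card_le
  rw [Fintype.card_coe] at this
  exact (Finset.card_le_card hST).trans this

end good

/-- Let `F`, `G` be rational binary forms of degree `d ≥ 2` without common zero over the algebraic
closure, such that `[F : G]` has potentially good reduction at every prime.  Then `[F : G]` has at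
most `max (d + 2) 26` preperiodic points in `ℙ¹(ℚ)`, and at most `d + 1` of them are periodic.  If
`F`, `G` are integral forms without common zero in `ℙ¹(𝔽_p)` for every prime `p` then `[F : G]` has
at most `max (d + 2) 17` preperiodic points in `ℙ¹(ℚ)`.  For every `d ≥ 2` there are integral forms
without common zero over any field, with potentially good reduction at every prime, such that
`[F : G]` has `d + 1` fixed points. -/
theorem result :
    (∀ d : ℕ, 2 ≤ d → ∀ F G : MvPolynomial (Fin 2) ℚ, F.IsHomogeneous d → G.IsHomogeneous d →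
      (∀ x : Fin 2 → AlgebraicClosure ℚ, x ≠ 0 →
        ¬ (MvPolynomial.aeval x F = 0 ∧ MvPolynomial.aeval x G = 0)) →
      (∀ (p : ℕ) [Fact p.Prime], PotGood (Rat.AbsoluteValue.padic p) F G d) →
      (∀ S : Finset (Projectivization ℚ (Fin 2 → ℚ)), (∀ P ∈ S, IsPreper F G P) →
        S.card ≤ max (d + 2) 26) ∧
      (∀ S : Finset (Projectivization ℚ (Fin 2 → ℚ)), (∀ P ∈ S, IsPer F G P) →
        S.card ≤ d + 1)) ∧
    (∀ d : ℕ, 2 ≤ d → ∀ F G : MvPolynomial (Fin 2) ℤ, F.IsHomogeneous d → G.IsHomogeneous d →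
      NoCommonZeroModPrimes F G →
      ∀ S : Finset (Projectivization ℚ (Fin 2 → ℚ)),
        (∀ P ∈ S, IsPreper (F.map (Int.castRingHom ℚ)) (G.map (Int.castRingHom ℚ)) P) →
        S.card ≤ max (d + 2) 17) ∧
    (∀ d : ℕ, 2 ≤ d → ∃ F G : MvPolynomial (Fin 2) ℤ, F.IsHomogeneous d ∧ G.IsHomogeneous d ∧
      (∀ (K : Type) [Field K] (x : Fin 2 → K), x ≠ 0 →
        ¬ (MvPolynomial.aeval x F = 0 ∧ MvPolynomial.aeval x G = 0)) ∧
      (∀ (p : ℕ) [Fact p.Prime], PotGood (Rat.AbsoluteValue.padic p)
        (F.map (Int.castRingHom ℚ)) (G.map (Int.castRingHom ℚ)) d) ∧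
      ∃ S : Finset (Projectivization ℚ (Fin 2 → ℚ)), S.card = d + 1 ∧
        ∀ P ∈ S, IsFix (F.map (Int.castRingHom ℚ)) (G.map (Int.castRingHom ℚ)) P) := by
  refine ⟨fun d hd F G hF hG h0 hp => ⟨bound_preper hd hF hG h0 hp, bound_per hd hF hG h0 hp⟩,
    fun d hd F G hF hG h => bound_good hd hF hG h,
    fun d hd => ⟨exF ℤ d, exG ℤ d, exF_hom hd, exG_hom d, fun K _ x hx => ex_no_zero hd x hx,
      ?_, ?_⟩⟩
  · intro p _
    rw [exF_map, exG_map]
    apply ex_potGood _ _ hd
    intro x y
    have := @padicNorm.nonarchimedean p _ x y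
    show ((padicNorm p (x + y) : ℚ) : ℝ) ≤ max ((padicNorm p x : ℚ) : ℝ) ((padicNorm p y : ℚ) : ℝ)
    exact_mod_cast this
  · rw [exF_map, exG_map]
    exact ex_fixed ℚ hd

end Pool.Agent.Results.MP_c076ed_nt.PotentiallyGoodReduction
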